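import Mathlib

/-!
The Douglas formula on the circle: for `f` in `L²`,
`∬ |f(x+h) - f(x)|² / |e(h) - 1|² dx dh = ∑ |n| |f̂(n)|²` (normalised Haar measure).
-/

namespace Pool.Agent.Lib_helper60.FB

open MeasureTheory AddCircle ENNReal

variable {T : ℝ} [hT : Fact (0 < T)]

theorem parseval_enn {f : AddCircle T → ℂ} (hf : MemLp f 2 haarAddCircle) :
    ∑' n : ℤ, ‖fourierCoeff f n‖ₑ ^ 2 = ∫⁻ t, ‖f t‖ₑ ^ 2 ∂haarAddCircle := by
  have h1 := hasSum_sq_fourierCoeff (hf.toLp f)
  have h2 : ∀ n, fourierCoeff (hf.toLp f : AddCircle T → ℂ) n = fourierCoeff f n := fun n => by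
    rw [fourierCoeff_congr_ae hf.coeFn_toLp]
  have h3 : ∫ t, ‖(hf.toLp f : AddCircle T → ℂ) t‖ ^ 2 ∂haarAddCircle =
      ∫ t, ‖f t‖ ^ 2 ∂haarAddCircle :=
    integral_congr_ae (by filter_upwards [hf.coeFn_toLp] with t ht; rw [ht])
  simp only [h2] at h1
  rw [h3] at h1
  have h4 : ∫⁻ t, ‖f t‖ₑ ^ 2 ∂haarAddCircle = ENNReal.ofReal (∫ t, ‖f t‖ ^ 2 ∂haarAddCircle) := by
    rw [ofReal_integral_eq_lintegral_ofReal hf.norm.integrable_sq
      (Filter.Eventually.of_forall fun t => by positivity)]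
    refine lintegral_congr fun t => ?_
    rw [ENNReal.ofReal_pow (norm_nonneg _), ofReal_norm]
  rw [h4, ← h1.tsum_eq, ENNReal.ofReal_tsum_of_nonneg (fun n => by positivity) h1.summable]
  refine tsum_congr fun n => ?_
  rw [ENNReal.ofReal_pow (norm_nonneg _), ofReal_norm]

theorem fourierCoeff_translate (f : AddCircle T → ℂ) (h : AddCircle T) (n : ℤ) :
    fourierCoeff (fun x => f (x + h)) n = fourier n h * fourierCoeff f n := by
  rw [fourierCoeff, fourierCoeff]
  have h1 := integral_add_right_eq_self (μ := (haarAddCircle : Measure (AddCircle T)))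
    (fun t => fourier (-n) (t - h) • f t) h
  simp only [add_sub_cancel_right] at h1
  rw [h1, ← integral_const_mul]
  refine integral_congr_ae (Filter.Eventually.of_forall fun t => ?_)
  simp only [smul_eq_mul, fourier_apply, smul_sub, neg_smul, ← mul_assoc]
  congr 1
  rw [← Circle.coe_mul, ← AddCircle.toCircle_add]
  congr 2
  abel

theorem fourierCoeff_diff {f : AddCircle T → ℂ} (hf : MemLp f 2 haarAddCircle) (h : AddCircle T)
    (n : ℤ) : fourierCoeff (fun x => f (x + h) - f x) n = (fourier n h - 1) * fourierCoeff f n := by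
  have hi : Integrable f haarAddCircle := hf.integrable (by norm_num)
  have hi2 : Integrable (fun x => f (x + h)) haarAddCircle := hi.comp_add_right h
  have h1 : (fun x => f (x + h) - f x) = (fun x => f (x + h)) + (-1 : ℂ) • f := by
    funext x
    simp [sub_eq_add_neg]
  rw [h1]
  have h2 := fourierCoeff.add hi2 (hi.smul (-1 : ℂ))
  have h3 := congrFun h2 n
  simp only [Pi.add_apply] at h3
  rw [h3, fourierCoeff.const_smul, fourierCoeff_translate]
  simp
  ring

theorem fourier_sub_one_geom (n : ℕ) (h : AddCircle T) :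
    fourier (n : ℤ) h - 1 = (fourier 1 h - 1) * ∑ k ∈ Finset.range n, fourier (k : ℤ) h := by
  have hk : ∀ k : ℕ, (fourier (k : ℤ) h : ℂ) = (fourier 1 h : ℂ) ^ k := by
    intro k
    induction k with
    | zero => simp
    | succ k ih => rw [Nat.cast_succ, fourier_add, ih, pow_succ]
  simp only [hk]
  rw [mul_geom_sum]

theorem fourier_one_ne {h : AddCircle T} (hh : h ≠ 0) : (fourier 1 h : ℂ) - 1 ≠ 0 := by
  rw [sub_ne_zero, fourier_one]
  intro h1
  apply hh
  apply AddCircle.injective_toCircle hT.out.ne'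
  rw [AddCircle.toCircle_zero]
  exact Circle.coe_injective (by simpa using h1)

theorem memLp_cont (g : C(AddCircle T, ℂ)) : MemLp g 2 (haarAddCircle : Measure (AddCircle T)) :=
  (g.continuous.memLp_of_hasCompactSupport (HasCompactSupport.of_compactSpace _))

theorem lintegral_geom (n : ℕ) :
    ∫⁻ h : AddCircle T, ‖∑ k ∈ Finset.range n, (fourier (k : ℤ) h : ℂ)‖ₑ ^ 2 ∂haarAddCircle = n := by
  set g : C(AddCircle T, ℂ) := ∑ k ∈ Finset.range n, fourier (k : ℤ) with hg
  have h1 : ∀ h, (∑ k ∈ Finset.range n, (fourier (k : ℤ) h : ℂ)) = g h := fun h => by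
    rw [hg, ContinuousMap.sum_apply]
  simp only [h1]
  rw [← parseval_enn (memLp_cont g)]
  have h2 : ∀ m : ℤ, fourierCoeff (g : AddCircle T → ℂ) m =
      if m ∈ (Finset.range n).image (fun k : ℕ => (k : ℤ)) then 1 else 0 := by
    intro m
    have h3 : (g : AddCircle T → ℂ) = fun x => ∑ k ∈ Finset.range n, (fourier (k : ℤ) x : ℂ) := by
      funext x
      exact (h1 x).symm
    have h4 := fourierCoeff.sum (T := T) (Finset.range n)
      (fun k : ℕ => ((fourier (k : ℤ) : C(AddCircle T, ℂ)) : AddCircle T → ℂ))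
      (fun k _ => (memLp_cont (fourier (k : ℤ))).integrable (by norm_num))
    have h5 : (g : AddCircle T → ℂ) = ∑ k ∈ Finset.range n,
        ((fourier (k : ℤ) : C(AddCircle T, ℂ)) : AddCircle T → ℂ) := by
      rw [h3]
      funext x
      simp
    rw [h5, h4]
    simp only [Finset.sum_apply, fourierCoeff_fourier]
    simp only [Pi.single_apply]
    split_ifs with hm
    · obtain ⟨k, hk, rfl⟩ := Finset.mem_image.1 hm
      rw [Finset.sum_eq_single k]
      · simp
      · intro b _ hb
        rw [if_neg]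
        exact fun h => hb (by exact_mod_cast h.symm)
      · intro h
        exact absurd hk h
    · refine Finset.sum_eq_zero fun k hk => ?_
      rw [if_neg]
      rintro rfl
      exact hm (Finset.mem_image_of_mem _ hk)
  simp only [h2]
  rw [tsum_eq_sum (s := (Finset.range n).image (fun k : ℕ => (k : ℤ)))]
  · rw [Finset.sum_congr rfl (g := fun _ => (1 : ℝ≥0∞))]
    · rw [Finset.sum_const, Finset.card_image_of_injective _ Nat.cast_injective]
      simp
    · intro m hm
      rw [if_pos hm]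
      simp
  · intro m hm
    rw [if_neg hm]
    simp

theorem lintegral_kernel (n : ℤ) :
    ∫⁻ h : AddCircle T, ‖(fourier n h : ℂ) - 1‖ₑ ^ 2 / ‖(fourier 1 h : ℂ) - 1‖ₑ ^ 2 ∂haarAddCircle =
      n.natAbs := by
  have hnn : ∀ n : ℕ, ∫⁻ h : AddCircle T, ‖(fourier (n : ℤ) h : ℂ) - 1‖ₑ ^ 2 /
      ‖(fourier 1 h : ℂ) - 1‖ₑ ^ 2 ∂haarAddCircle = n := by
    intro n
    rw [← lintegral_geom (T := T) n]
    have hz : ∀ᵐ h ∂(haarAddCircle : Measure (AddCircle T)), h ≠ 0 := by
      have h0 : (haarAddCircle : Measure (AddCircle T)) {0} = 0 := by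
        have hv : (volume : Measure (AddCircle T)) {0} = 0 := by
          have := AddCircle.volume_closedBall (T := T) (x := 0) 0
          rw [Metric.closedBall_zero] at this
          rw [this]
          simp [hT.out.le]
        rw [volume_eq_smul_haarAddCircle, Measure.smul_apply, smul_eq_mul] at hv
        rcases mul_eq_zero.1 hv with h | h
        · exact absurd h (by simpa using hT.out)
        · exact h
      rw [ae_iff]
      refine measure_mono_null (fun x hx => ?_) h0
      simpa using hx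
    refine lintegral_congr_ae ?_
    filter_upwards [hz] with h hh
    have h1 := fourier_one_ne hh
    rw [fourier_sub_one_geom, enorm_mul, mul_pow, mul_comm, ENNReal.mul_div_cancel_right]
    · simpa using h1
    · simp
  rcases Int.natAbs_eq n with h | h
  · conv_lhs => rw [h]
    exact hnn _
  · rw [← hnn n.natAbs]
    refine lintegral_congr fun x => ?_
    congr 2
    conv_lhs => rw [h]
    rw [fourier_neg]
    rw [← ofReal_norm, ← ofReal_norm, ← RCLike.norm_conj]
    simp

/-- Douglas formula. -/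
theorem douglas {f : AddCircle T → ℂ} (hf : MemLp f 2 haarAddCircle) :
    ∫⁻ h, (∫⁻ x, ‖f (x + h) - f x‖ₑ ^ 2 ∂haarAddCircle) / ‖(fourier 1 h : ℂ) - 1‖ₑ ^ 2
      ∂haarAddCircle = ∑' n : ℤ, (n.natAbs : ℝ≥0∞) * ‖fourierCoeff f n‖ₑ ^ 2 := by
  have h1 : ∀ h : AddCircle T, (∫⁻ x, ‖f (x + h) - f x‖ₑ ^ 2 ∂haarAddCircle) =
      ∑' n : ℤ, ‖(fourier n h : ℂ) - 1‖ₑ ^ 2 * ‖fourierCoeff f n‖ₑ ^ 2 := by
    intro h
    have hm : MemLp (fun x => f (x + h) - f x) 2 haarAddCircle := by
      refine MemLp.sub ?_ hf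
      exact hf.comp_measurePreserving (measurePreserving_add_right _ h)
    rw [← parseval_enn hm]
    refine tsum_congr fun n => ?_
    rw [fourierCoeff_diff hf, enorm_mul, mul_pow]
  simp only [h1]
  have h2 : ∀ h : AddCircle T, (∑' n : ℤ, ‖(fourier n h : ℂ) - 1‖ₑ ^ 2 * ‖fourierCoeff f n‖ₑ ^ 2) /
      ‖(fourier 1 h : ℂ) - 1‖ₑ ^ 2 = ∑' n : ℤ, ‖(fourier n h : ℂ) - 1‖ₑ ^ 2 /
        ‖(fourier 1 h : ℂ) - 1‖ₑ ^ 2 * ‖fourierCoeff f n‖ₑ ^ 2 := by
    intro h
    rw [div_eq_mul_inv, ← ENNReal.tsum_mul_right]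
    refine tsum_congr fun n => ?_
    rw [div_eq_mul_inv]
    ring
  simp only [h2]
  rw [lintegral_tsum]
  · refine tsum_congr fun n => ?_
    rw [lintegral_mul_const, lintegral_kernel]
    fun_prop
  · intro n
    fun_prop

end Pool.Agent.Lib_helper60.FB
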