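import Pool.Agent.Lib_helper60.FB.Doug

/-!
The Herglotz integral of an integrable function on the circle: it is holomorphic off the support,
has the expected Taylor coefficients at `0`, and is purely imaginary on the arcs where a real `g`
vanishes.
-/

namespace Pool.Agent.Lib_helper60.FB

open MeasureTheory AddCircle Set Filter Topology Metric

variable {T : ℝ} [hT : Fact (0 < T)]

/-- `e(t)`, the point of the unit circle with parameter `t`. -/
noncomputable def ee (t : AddCircle T) : ℂ := toCircle t

theorem norm_ee (t : AddCircle T) : ‖ee t‖ = 1 := by simp [ee]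

theorem continuous_ee : Continuous (ee : AddCircle T → ℂ) :=
  continuous_subtype_val.comp AddCircle.continuous_toCircle

theorem ee_pow (t : AddCircle T) (n : ℕ) : ee t ^ n = fourier (n : ℤ) t := by
  induction n with
  | zero => simp
  | succ n ih => rw [pow_succ, ih, Nat.cast_succ, fourier_add, fourier_one]; rfl

theorem ee_ne (t : AddCircle T) : ee t ≠ 0 := by
  rw [← norm_ne_zero_iff, norm_ee]
  norm_num

/-- The Herglotz integral over the set `K`. -/
noncomputable def herg (g : AddCircle T → ℂ) (K : Set (AddCircle T)) (z : ℂ) : ℂ :=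
  ∫ t in K, (ee t + z) / (ee t - z) * g t ∂haarAddCircle

theorem herg_hasDerivAt {g : AddCircle T → ℂ} (hg : Integrable g haarAddCircle)
    {K : Set (AddCircle T)} (hK : IsClosed K) {z : ℂ} (hz : ∀ t ∈ K, z ≠ ee t) :
    HasDerivAt (herg g K) (∫ t in K, 2 * ee t / (ee t - z) ^ 2 * g t ∂haarAddCircle) z := by
  -- the distance of `z` to the compact set `ee '' K`
  have hKc : IsCompact (ee '' K) := hK.isCompact.image continuous_ee
  have hzK : z ∉ ee '' K := by
    rintro ⟨t, ht, h⟩
    exact hz t ht h.symm
  obtain ⟨δ, hδ, hball⟩ := Metric.isOpen_iff.1 hKc.isClosed.isOpen_compl z hzK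
  have hsep : ∀ t ∈ K, ∀ w ∈ ball z (δ / 2), δ / 2 ≤ ‖ee t - w‖ := by
    intro t ht w hw
    by_contra hcon
    have h1 : ee t ∈ ball z δ := by
      rw [mem_ball, dist_eq_norm]
      calc ‖ee t - z‖ = ‖(ee t - w) + (w - z)‖ := by ring_nf
        _ ≤ ‖ee t - w‖ + ‖w - z‖ := norm_add_le _ _
        _ < δ / 2 + δ / 2 := add_lt_add (not_le.1 hcon) (by rwa [mem_ball, dist_eq_norm] at hw)
        _ = δ := by ring
    exact hball h1 ⟨t, ht, rfl⟩
  have hmK : MeasurableSet K := hK.measurableSet
  have hne : ∀ t ∈ K, ∀ w ∈ ball z (δ / 2), ee t - w ≠ 0 := by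
    intro t ht w hw h0
    have := hsep t ht w hw
    rw [h0, norm_zero] at this
    linarith
  have hmeas : ∀ w, AEStronglyMeasurable (fun t => (ee t + w) / (ee t - w) * g t)
      ((haarAddCircle : Measure (AddCircle T)).restrict K) := by
    intro w
    refine AEStronglyMeasurable.mul ?_ hg.1.restrict
    exact ((continuous_ee.add continuous_const).measurable.div
      (continuous_ee.sub continuous_const).measurable).aestronglyMeasurable
  have hz0 : z ∈ ball z (δ / 2) := mem_ball_self (by positivity)
  refine (hasDerivAt_integral_of_dominated_loc_of_deriv_le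
    (F := fun w t => (ee t + w) / (ee t - w) * g t)
    (F' := fun w t => 2 * ee t / (ee t - w) ^ 2 * g t)
    (bound := fun t => 2 / (δ / 2) ^ 2 * ‖g t‖) (s := ball z (δ / 2))
    (ball_mem_nhds _ (by positivity)) (Eventually.of_forall hmeas) ?_ ?_ ?_ ?_ ?_).2
  · -- integrable at z
    refine Integrable.mono' (hg.norm.restrict (s := K) |>.const_mul ((1 + ‖z‖) / (δ / 2)))
      (hmeas z) ?_
    refine (ae_restrict_iff' hmK).2 (Eventually.of_forall fun t ht => ?_)
    rw [norm_mul, norm_div]
    refine mul_le_mul_of_nonneg_right ?_ (norm_nonneg _)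
    refine div_le_div₀ (by positivity) ?_ (by positivity) (hsep t ht z hz0)
    calc ‖ee t + z‖ ≤ ‖ee t‖ + ‖z‖ := norm_add_le _ _
      _ = 1 + ‖z‖ := by rw [norm_ee]
  · refine AEStronglyMeasurable.mul ?_ hg.1.restrict
    exact ((continuous_const.mul continuous_ee).measurable.div
      ((continuous_ee.sub continuous_const).pow 2).measurable).aestronglyMeasurable
  · refine (ae_restrict_iff' hmK).2 (Eventually.of_forall fun t ht w hw => ?_)
    rw [norm_mul, norm_div, norm_mul, norm_ee, norm_pow]
    refine mul_le_mul_of_nonneg_right ?_ (norm_nonneg _)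
    simp only [Complex.norm_ofNat, mul_one]
    have := hsep t ht w hw
    gcongr
  · exact (hg.norm.restrict (s := K)).const_mul _
  · refine (ae_restrict_iff' hmK).2 (Eventually.of_forall fun t ht w hw => ?_)
    have h1 : HasDerivAt (fun w : ℂ => (ee t + w) / (ee t - w))
        ((1 * (ee t - w) - (ee t + w) * (-1)) / (ee t - w) ^ 2) w :=
      ((hasDerivAt_id w).const_add (ee t)).div ((hasDerivAt_id w).const_sub (ee t))
        (hne t ht w hw)
    have h2 := h1.mul_const (g t)
    refine h2.congr_deriv ?_
    congr 2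
    ring

theorem herg_differentiableOn {g : AddCircle T → ℂ} (hg : Integrable g haarAddCircle)
    {K : Set (AddCircle T)} (hK : IsClosed K) :
    DifferentiableOn ℂ (herg g K) {z | ∀ t ∈ K, z ≠ ee t} := fun _ hz =>
  (herg_hasDerivAt hg hK hz).differentiableAt.differentiableWithinAt

/-- Taylor expansion in the disc. -/
theorem herg_hasSum {g : AddCircle T → ℂ} (hg : Integrable g haarAddCircle)
    {K : Set (AddCircle T)} (hK : IsClosed K) (h0 : ∀ᵐ t ∂haarAddCircle, t ∉ K → g t = 0) {z : ℂ}
    (hz : ‖z‖ < 1) :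
    HasSum (fun n : ℕ => 2 * fourierCoeff g ((n : ℤ) + 1) * z ^ (n + 1))
      (herg g K z - fourierCoeff g 0) := by
  have hfull : ∀ {φ : AddCircle T → ℂ}, ∫ t in K, φ t * g t ∂haarAddCircle =
      ∫ t, φ t * g t ∂haarAddCircle := by
    intro φ
    rw [← integral_indicator hK.measurableSet]
    refine integral_congr_ae ?_
    filter_upwards [h0] with t ht
    by_cases h : t ∈ K
    · rw [indicator_of_mem h]
    · rw [indicator_of_notMem h, ht h, mul_zero]
  have h1 : ∀ t : AddCircle T, HasSum (fun n : ℕ => 2 * (z ^ (n + 1) * (fourier (-((n : ℤ) + 1)) t : ℂ) * g t))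
      (((ee t + z) / (ee t - z) - 1) * g t) := by
    intro t
    have hq : ‖z / ee t‖ < 1 := by rwa [norm_div, norm_ee, div_one]
    have h2 := (hasSum_geometric_of_norm_lt_one hq).mul_left (2 * (z / ee t) * g t)
    have hne : ee t - z ≠ 0 := by
      intro h
      rw [sub_eq_zero] at h
      rw [← h, norm_ee] at hz
      exact lt_irrefl _ hz
    have hne' := ee_ne t
    have e1 : ((ee t + z) / (ee t - z) - 1) * g t = 2 * (z / ee t) * g t * (1 - z / ee t)⁻¹ := by
      have h3 : 1 - z / ee t = (ee t - z) / ee t := by field_simp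
      rw [h3, inv_div]
      field_simp
      ring
    have e2 : ∀ n : ℕ, 2 * (z ^ (n + 1) * (fourier (-((n : ℤ) + 1)) t : ℂ) * g t) =
        2 * (z / ee t) * g t * (z / ee t) ^ n := by
      intro n
      have h3 : (fourier (-((n : ℤ) + 1)) t : ℂ) = (ee t)⁻¹ ^ (n + 1) := by
        rw [fourier_neg]
        have h4 := ee_pow t (n + 1)
        push_cast at h4
        rw [← h4, map_pow]
        congr 1
        rw [Complex.inv_def, Complex.normSq_eq_norm_sq, norm_ee]
        simp
      rw [h3, div_pow, inv_pow]
      field_simp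
      ring
    have e3 := funext e2
    rw [e1, e3]
    exact h2
  have hint : ∀ n : ℕ, Integrable (fun t => 2 * (z ^ (n + 1) * (fourier (-((n : ℤ) + 1)) t : ℂ) * g t))
      haarAddCircle := by
    intro n
    refine ((hg.bdd_mul (c := 1) (f := fun t => (fourier (-((n : ℤ) + 1)) t : ℂ)) ?_ ?_).const_mul
      (2 * z ^ (n + 1))).congr (Eventually.of_forall fun t => by simp only; ring)
    · exact (fourier _).continuous.aestronglyMeasurable
    · exact Eventually.of_forall fun t => by rw [fourier_apply]; simp
  have hbound : Summable fun n : ℕ => ∫ t, ‖2 * (z ^ (n + 1) *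
      (fourier (-((n : ℤ) + 1)) t : ℂ) * g t)‖ ∂haarAddCircle := by
    have h5 : ∀ n : ℕ, (∫ t, ‖2 * (z ^ (n + 1) * (fourier (-((n : ℤ) + 1)) t : ℂ) * g t)‖
        ∂haarAddCircle) = ‖z‖ ^ n * (2 * ‖z‖ * ∫ t, ‖g t‖ ∂haarAddCircle) := by
      intro n
      rw [← integral_const_mul, ← integral_const_mul]
      refine integral_congr_ae (Eventually.of_forall fun t => ?_)
      simp only [norm_mul, norm_pow]
      rw [fourier_apply]
      simp
      ring
    simp only [h5]
    exact (summable_geometric_of_lt_one (norm_nonneg _) hz).mul_right _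
  have h6 := hasSum_integral_of_summable_integral_norm hint hbound
  have h7 : ∫ t, (∑' n : ℕ, 2 * (z ^ (n + 1) * (fourier (-((n : ℤ) + 1)) t : ℂ) * g t))
      ∂haarAddCircle = herg g K z - fourierCoeff g 0 := by
    have h8 : ∀ t : AddCircle T, (∑' n : ℕ, 2 * (z ^ (n + 1) *
        (fourier (-((n : ℤ) + 1)) t : ℂ) * g t)) = (ee t + z) / (ee t - z) * g t - g t := by
      intro t
      rw [(h1 t).tsum_eq]
      ring
    simp only [h8]
    have hi : Integrable (fun t => (ee t + z) / (ee t - z) * g t) haarAddCircle := by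
      refine Integrable.mono' (hg.norm.const_mul ((1 + ‖z‖) / (1 - ‖z‖))) ?_ ?_
      · refine AEStronglyMeasurable.mul ?_ hg.1
        exact ((continuous_ee.add continuous_const).measurable.div
          (continuous_ee.sub continuous_const).measurable).aestronglyMeasurable
      · refine Eventually.of_forall fun t => ?_
        rw [norm_mul, norm_div]
        refine mul_le_mul_of_nonneg_right ?_ (norm_nonneg _)
        have h9 : 1 - ‖z‖ ≤ ‖ee t - z‖ := by
          have := norm_sub_norm_le (ee t) z
          rwa [norm_ee] at this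
        have h10 : ‖ee t + z‖ ≤ 1 + ‖z‖ := by
          have := norm_add_le (ee t) z
          rwa [norm_ee] at this
        exact div_le_div₀ (by positivity) h10 (by linarith) h9
    rw [integral_sub hi hg, herg, hfull]
    congr 1
    rw [fourierCoeff]
    simp
  rw [h7] at h6
  have e4 : (fun n : ℕ => 2 * fourierCoeff g ((n : ℤ) + 1) * z ^ (n + 1)) = fun n : ℕ =>
      ∫ t, 2 * (z ^ (n + 1) * (fourier (-((n : ℤ) + 1)) t : ℂ) * g t) ∂haarAddCircle := by
    funext n
    rw [fourierCoeff, mul_assoc, mul_comm _ (z ^ (n + 1)), ← integral_const_mul,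
      ← integral_const_mul]
    refine integral_congr_ae (Eventually.of_forall fun t => ?_)
    simp only [smul_eq_mul]
    ring
  rw [e4]
  exact h6

theorem re_quot (e z : ℂ) :
    ((e + z) / (e - z)).re = (‖e‖ ^ 2 - ‖z‖ ^ 2) / ‖e - z‖ ^ 2 := by
  rw [Complex.div_re, Complex.normSq_eq_norm_sq, ← add_div]
  congr 1
  rw [← Complex.normSq_eq_norm_sq, ← Complex.normSq_eq_norm_sq, Complex.normSq_apply,
    Complex.normSq_apply]
  simp only [Complex.add_re, Complex.sub_re, Complex.add_im, Complex.sub_im]
  ring

theorem herg_re_zero (g : AddCircle T → ℝ) (K : Set (AddCircle T)) {z : ℂ} (hz : ‖z‖ = 1) :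
    (herg (fun t => (g t : ℂ)) K z).re = 0 := by
  have h1 : ∀ t : AddCircle T, (ee t + z) / (ee t - z) * (g t : ℂ) =
      Complex.I * ((((ee t + z) / (ee t - z)).im * g t : ℝ) : ℂ) := by
    intro t
    have h2 : ((ee t + z) / (ee t - z)).re = 0 := by
      rw [re_quot, norm_ee, hz]
      simp
    set q := (ee t + z) / (ee t - z) with hq
    apply Complex.ext <;> simp [h2]
  rw [herg]
  simp only [h1]
  rw [integral_const_mul, integral_complex_ofReal]
  simp

/-- In the disc the real part is the Poisson integral. -/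
theorem herg_re {g : AddCircle T → ℝ} (hg : Integrable g haarAddCircle) (K : Set (AddCircle T))
    {z : ℂ} (hz : ‖z‖ < 1) :
    (herg (fun t => (g t : ℂ)) K z).re =
      ∫ t in K, (1 - ‖z‖ ^ 2) / ‖ee t - z‖ ^ 2 * g t ∂haarAddCircle := by
  have hi : Integrable (fun t => (ee t + z) / (ee t - z) * (g t : ℂ))
      ((haarAddCircle : Measure (AddCircle T)).restrict K) := by
    refine Integrable.mono' ((hg.norm.const_mul ((1 + ‖z‖) / (1 - ‖z‖))).restrict) ?_ ?_
    · refine AEStronglyMeasurable.mul ?_ hg.ofReal.1.restrict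
      exact ((continuous_ee.add continuous_const).measurable.div
        (continuous_ee.sub continuous_const).measurable).aestronglyMeasurable
    · refine Eventually.of_forall fun t => ?_
      rw [norm_mul, norm_div, Complex.norm_real]
      refine mul_le_mul_of_nonneg_right ?_ (norm_nonneg _)
      have h9 : 1 - ‖z‖ ≤ ‖ee t - z‖ := by
        have := norm_sub_norm_le (ee t) z
        rwa [norm_ee] at this
      have h10 : ‖ee t + z‖ ≤ 1 + ‖z‖ := by
        have := norm_add_le (ee t) z
        rwa [norm_ee] at this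
      exact div_le_div₀ (by positivity) h10 (by linarith) h9
  rw [herg, show (∫ t in K, (ee t + z) / (ee t - z) * (g t : ℂ) ∂haarAddCircle).re =
    RCLike.re (∫ t in K, (ee t + z) / (ee t - z) * (g t : ℂ) ∂haarAddCircle) from rfl,
    ← integral_re hi]
  refine integral_congr_ae (Eventually.of_forall fun t => ?_)
  simp only [RCLike.re_to_complex, Complex.re_mul_ofReal]
  rw [re_quot, norm_ee]
  norm_num

end Pool.Agent.Lib_helper60.FB
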