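import Pool.Agent.Lib_helper60.FB.Doug

/-!
Rellich compactness for `H^{1/2}` of the circle.
-/

namespace Pool.Agent.Lib_helper60.FB

open MeasureTheory AddCircle ENNReal Filter Topology

variable {T : ℝ} [hT : Fact (0 < T)]

/-- The energy `∑ |n| |f̂(n)|²`. -/
noncomputable def en (f : AddCircle T → ℂ) : ℝ≥0∞ :=
  ∑' n : ℤ, (n.natAbs : ℝ≥0∞) * ‖fourierCoeff f n‖ₑ ^ 2

theorem enorm_sub_sq_le (a b : ℂ) : ‖a - b‖ₑ ^ 2 ≤ 2 * ‖a‖ₑ ^ 2 + 2 * ‖b‖ₑ ^ 2 := by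
  have h1 : ‖a - b‖ ^ 2 ≤ 2 * ‖a‖ ^ 2 + 2 * ‖b‖ ^ 2 := by
    nlinarith [norm_sub_le a b, norm_nonneg a, norm_nonneg b, norm_nonneg (a - b),
      sq_nonneg (‖a‖ - ‖b‖)]
  have h2 := ENNReal.ofReal_le_ofReal h1
  rw [ENNReal.ofReal_add (by positivity) (by positivity), ENNReal.ofReal_mul (by norm_num),
    ENNReal.ofReal_mul (by norm_num), ENNReal.ofReal_pow (norm_nonneg _),
    ENNReal.ofReal_pow (norm_nonneg _), ENNReal.ofReal_pow (norm_nonneg _), ofReal_norm,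
    ofReal_norm, ofReal_norm] at h2
  simpa using h2

theorem tail_le (c d : ℤ → ℂ) (N : ℕ) :
    ∑' n : ℤ, ‖c n - d n‖ₑ ^ 2 ≤ ∑ n ∈ Finset.Icc (-(N : ℤ)) N, ‖c n - d n‖ₑ ^ 2 +
      (2 * ∑' n : ℤ, (n.natAbs : ℝ≥0∞) * ‖c n‖ₑ ^ 2 +
        2 * ∑' n : ℤ, (n.natAbs : ℝ≥0∞) * ‖d n‖ₑ ^ 2) / (N + 1) := by
  classical
  have h1 : ∀ n : ℤ, ‖c n - d n‖ₑ ^ 2 ≤
      (if n ∈ Finset.Icc (-(N : ℤ)) N then ‖c n - d n‖ₑ ^ 2 else 0) +
      (2 * ((n.natAbs : ℝ≥0∞) * ‖c n‖ₑ ^ 2) + 2 * ((n.natAbs : ℝ≥0∞) * ‖d n‖ₑ ^ 2)) *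
        ((N : ℝ≥0∞) + 1)⁻¹ := by
    intro n
    split_ifs with hn
    · exact le_self_add
    · rw [zero_add]
      have h2 : ((N : ℝ≥0∞) + 1) ≤ n.natAbs := by
        have : N + 1 ≤ n.natAbs := by
          rw [Finset.mem_Icc, not_and_or] at hn
          omega
        exact_mod_cast this
      have h3 : ((N : ℝ≥0∞) + 1) ≠ 0 := by simp
      have h4 : ((N : ℝ≥0∞) + 1) ≠ ⊤ := by
        exact_mod_cast ENNReal.natCast_ne_top (N + 1)
      rw [← div_eq_mul_inv, ENNReal.le_div_iff_mul_le (Or.inl h3) (Or.inl h4)]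
      calc ‖c n - d n‖ₑ ^ 2 * ((N : ℝ≥0∞) + 1)
          ≤ (2 * ‖c n‖ₑ ^ 2 + 2 * ‖d n‖ₑ ^ 2) * n.natAbs :=
            mul_le_mul' (enorm_sub_sq_le _ _) h2
        _ = _ := by ring
  refine (ENNReal.tsum_le_tsum h1).trans ?_
  rw [ENNReal.tsum_add, ENNReal.tsum_mul_right, ENNReal.tsum_add, ENNReal.tsum_mul_left,
    ENNReal.tsum_mul_left, div_eq_mul_inv]
  gcongr
  rw [tsum_eq_sum (s := Finset.Icc (-(N : ℤ)) N)]
  · refine (Finset.sum_le_sum fun n hn => ?_)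
    rw [if_pos hn]
  · intro n hn
    rw [if_neg hn]

theorem norm_coeff_le {f : AddCircle T → ℂ} (hf : MemLp f 2 haarAddCircle) {C : ℝ≥0∞}
    (hC : C ≠ ⊤) (h1 : ∫⁻ x, ‖f x‖ₑ ^ 2 ∂haarAddCircle ≤ C) (n : ℤ) :
    ‖fourierCoeff f n‖ ≤ Real.sqrt C.toReal := by
  have h2 : ‖fourierCoeff f n‖ₑ ^ 2 ≤ C :=
    (ENNReal.le_tsum n).trans ((parseval_enn hf).le.trans h1)
  apply Real.le_sqrt_of_sq_le
  have h3 := ENNReal.toReal_mono hC h2
  rwa [ENNReal.toReal_pow, toReal_enorm] at h3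

theorem rellich {f : ℕ → AddCircle T → ℂ} (hf : ∀ k, MemLp (f k) 2 haarAddCircle) {C : ℝ≥0∞}
    (hC : C ≠ ⊤) (h1 : ∀ k, ∫⁻ x, ‖f k x‖ₑ ^ 2 ∂haarAddCircle ≤ C) (h2 : ∀ k, en (f k) ≤ C) :
    ∃ φ : ℕ → ℕ, StrictMono φ ∧ ∃ g : AddCircle T → ℂ, MemLp g 2 haarAddCircle ∧
      Tendsto (fun k => eLpNorm (f (φ k) - g) 2 haarAddCircle) atTop (𝓝 0) ∧
      ∀ᵐ x ∂haarAddCircle, Tendsto (fun k => f (φ k) x) atTop (𝓝 (g x)) := by
  classical
  -- extraction of coefficients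
  have hcomp : IsCompact (Set.univ.pi fun _ : ℤ => Metric.closedBall (0 : ℂ) (Real.sqrt C.toReal)) :=
    isCompact_univ_pi fun _ => isCompact_closedBall _ _
  obtain ⟨a, -, φ, hφ, hlim⟩ := hcomp.tendsto_subseq (x := fun k n => fourierCoeff (f k) n)
    (fun k n _ => by
      rw [mem_closedBall_zero_iff]
      exact norm_coeff_le (hf k) hC (h1 k) n)
  have hlim' : ∀ n, Tendsto (fun k => fourierCoeff (f (φ k)) n) atTop (𝓝 (a n)) := fun n =>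
    (tendsto_pi_nhds.1 hlim) n
  set F : ℕ → Lp ℂ 2 (haarAddCircle : Measure (AddCircle T)) := fun k => (hf k).toLp (f k) with hF
  have hed : ∀ j k, edist (F j) (F k) ^ 2 =
      ∑' n : ℤ, ‖fourierCoeff (f j) n - fourierCoeff (f k) n‖ₑ ^ 2 := by
    intro j k
    rw [hF, Lp.edist_toLp_toLp]
    have hm : MemLp (f j - f k) 2 haarAddCircle := (hf j).sub (hf k)
    have h3 : eLpNorm (f j - f k) 2 haarAddCircle ^ 2 =
        ∫⁻ x, ‖(f j - f k) x‖ₑ ^ 2 ∂haarAddCircle := by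
      rw [eLpNorm_eq_lintegral_rpow_enorm_toReal (by norm_num) (by norm_num)]
      rw [← ENNReal.rpow_natCast, ← ENNReal.rpow_mul]
      simp
    rw [h3, ← parseval_enn hm]
    refine tsum_congr fun n => ?_
    congr 2
    have hi : ∀ k, Integrable (f k) haarAddCircle := fun k => (hf k).integrable (by norm_num)
    have h4 : f j - f k = f j + (-1 : ℂ) • f k := by
      funext x
      simp [sub_eq_add_neg]
    rw [h4, fourierCoeff.add (hi j) ((hi k).smul (-1 : ℂ)), Pi.add_apply, fourierCoeff.const_smul]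
    simp [sub_eq_add_neg]
  have hcau : CauchySeq fun k => F (φ k) := by
    rw [EMetric.cauchySeq_iff]
    intro ε hε
    -- choose N
    have hε2 : (0 : ℝ≥0∞) < ε ^ 2 / 2 := by
      apply ENNReal.div_pos (pow_ne_zero _ hε.ne') (by norm_num)
    obtain ⟨N, hN⟩ : ∃ N : ℕ, (2 * C + 2 * C) / ((N : ℝ≥0∞) + 1) < ε ^ 2 / 2 := by
      have h4C : (2 * C + 2 * C) ≠ ⊤ := by finiteness
      have hlim0 : Tendsto (fun N : ℕ => (2 * C + 2 * C) / ((N : ℝ≥0∞) + 1)) atTop (𝓝 0) := by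
        have h5 : Tendsto (fun N : ℕ => ((N : ℝ≥0∞) + 1)) atTop (𝓝 ⊤) := by
          have := (ENNReal.tendsto_nat_nhds_top).comp (tendsto_add_atTop_nat 1)
          refine this.congr fun n => ?_
          simp
        have h6 := ENNReal.Tendsto.const_div h5 (Or.inr h4C)
        simpa using h6
      exact ((tendsto_order.1 hlim0).2 _ hε2).exists
    have hfin : Tendsto (fun p : ℕ × ℕ => ∑ n ∈ Finset.Icc (-(N : ℤ)) N,
        ‖fourierCoeff (f (φ p.1)) n - fourierCoeff (f (φ p.2)) n‖ₑ ^ 2) atTop (𝓝 0) := by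
      rw [show (0 : ℝ≥0∞) = ∑ n ∈ Finset.Icc (-(N : ℤ)) N, 0 by simp]
      refine tendsto_finsetSum _ fun n _ => ?_
      rw [← prod_atTop_atTop_eq]
      have h7 : Tendsto (fun p : ℕ × ℕ => fourierCoeff (f (φ p.1)) n - fourierCoeff (f (φ p.2)) n)
          (atTop ×ˢ atTop) (𝓝 (a n - a n)) :=
        ((hlim' n).comp tendsto_fst).sub ((hlim' n).comp tendsto_snd)
      rw [sub_self] at h7
      have h8 := h7.enorm
      have h9 := ENNReal.Tendsto.pow (n := 2) h8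
      simpa using h9
    obtain ⟨⟨A, B⟩, hAB⟩ := (eventually_atTop.1 ((tendsto_order.1 hfin).2 _ hε2))
    refine ⟨max A B, fun j hj k hk => ?_⟩
    have h10 := hAB (j, k) ⟨(le_max_left _ _).trans hj, (le_max_right _ _).trans hk⟩
    have h11 : edist (F (φ j)) (F (φ k)) ^ 2 < ε ^ 2 := by
      rw [hed]
      refine (tail_le _ _ N).trans_lt ?_
      have h12 : (2 * ∑' n : ℤ, (n.natAbs : ℝ≥0∞) * ‖fourierCoeff (f (φ j)) n‖ₑ ^ 2 +
          2 * ∑' n : ℤ, (n.natAbs : ℝ≥0∞) * ‖fourierCoeff (f (φ k)) n‖ₑ ^ 2) / ((N : ℝ≥0∞) + 1) <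
          ε ^ 2 / 2 := by
        refine lt_of_le_of_lt ?_ hN
        gcongr
        · exact h2 _
        · exact h2 _
      calc _ < ε ^ 2 / 2 + ε ^ 2 / 2 := ENNReal.add_lt_add h10 h12
        _ = ε ^ 2 := ENNReal.add_halves _
    by_contra hcon
    exact absurd h11 (not_lt.2 (pow_le_pow_left' (not_lt.1 hcon) 2))
  obtain ⟨G, hG⟩ := cauchySeq_tendsto_of_complete hcau
  have hGm : MemLp (G : AddCircle T → ℂ) 2 haarAddCircle := Lp.memLp G
  have hconv : Tendsto (fun k => eLpNorm (f (φ k) - (G : AddCircle T → ℂ)) 2 haarAddCircle) atTop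
      (𝓝 0) := by
    have h13 := (Lp.tendsto_Lp_iff_tendsto_eLpNorm' (fun k => F (φ k)) G).1 hG
    refine h13.congr fun k => eLpNorm_congr_ae ?_
    filter_upwards [(hf (φ k)).coeFn_toLp] with x hx
    simp only [Pi.sub_apply, hF, hx]
  have hmeas : TendstoInMeasure haarAddCircle (fun k => f (φ k)) atTop (G : AddCircle T → ℂ) :=
    tendstoInMeasure_of_tendsto_eLpNorm (by norm_num) (fun k => (hf _).1) hGm.1 hconv
  obtain ⟨ψ, hψ, hae⟩ := hmeas.exists_seq_tendsto_ae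
  exact ⟨φ ∘ ψ, hφ.comp hψ, G, hGm, hconv.comp hψ.tendsto_atTop, hae⟩

end Pool.Agent.Lib_helper60.FB
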