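import Mathlib

/-!
Conformal self-maps of the closed unit ball: inversion in the sphere with centre `y`, `1 < ‖y‖`, and
radius `√(‖y‖² - 1)`.
-/

namespace Pool.Agent.Lib_helper60.FB

open Metric Set EuclideanGeometry

variable {E : Type*} [NormedAddCommGroup E] [InnerProductSpace ℝ E]

/-- Inversion in the sphere orthogonal to the unit sphere centred at `y`. -/
noncomputable def ballInv (y : E) (x : E) : E := inversion y (Real.sqrt (‖y‖ ^ 2 - 1)) x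

theorem ballInv_eq {y : E} (hy : 1 < ‖y‖) (x : E) :
    ballInv y x = y + ((‖y‖ ^ 2 - 1) / ‖x - y‖ ^ 2) • (x - y) := by
  have h : 0 ≤ ‖y‖ ^ 2 - 1 := by nlinarith
  rw [ballInv, inversion, div_pow, Real.sq_sqrt h, dist_eq_norm]
  simp [add_comm]

theorem ne_of_mem {y x : E} (hy : 1 < ‖y‖) (hx : x ∈ closedBall (0 : E) 1) : x ≠ y := by
  rintro rfl
  rw [mem_closedBall_zero_iff] at hx
  linarith

theorem norm_ballInv {y : E} (hy : 1 < ‖y‖) {x : E} (hx : x ≠ y) :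
    ‖ballInv y x‖ ^ 2 - 1 = ((‖y‖ ^ 2 - 1) / ‖x - y‖ ^ 2) * (‖x‖ ^ 2 - 1) := by
  have h0 : ‖x - y‖ ≠ 0 := by
    rw [norm_ne_zero_iff]
    exact sub_ne_zero.2 hx
  have h1 : ‖x‖ ^ 2 = ‖y‖ ^ 2 + 2 * inner ℝ y (x - y) + ‖x - y‖ ^ 2 := by
    have := norm_add_sq_real y (x - y)
    rw [add_sub_cancel] at this
    exact this
  rw [ballInv_eq hy, norm_add_sq_real, inner_smul_right, norm_smul, mul_pow, Real.norm_eq_abs,
    sq_abs]
  have h2 : inner ℝ y (x - y) = (‖x‖ ^ 2 - ‖y‖ ^ 2 - ‖x - y‖ ^ 2) / 2 := by linarith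
  rw [h2]
  field_simp
  ring

theorem ballInv_mapsTo {y : E} (hy : 1 < ‖y‖) :
    MapsTo (ballInv y) (closedBall (0 : E) 1) (closedBall (0 : E) 1) := by
  intro x hx
  have h := norm_ballInv hy (ne_of_mem hy hx)
  rw [mem_closedBall_zero_iff] at hx ⊢
  have h1 : 0 ≤ (‖y‖ ^ 2 - 1) / ‖x - y‖ ^ 2 := by
    apply div_nonneg
    · nlinarith
    · positivity
  have h2 : ‖x‖ ^ 2 - 1 ≤ 0 := by nlinarith [norm_nonneg x]
  have h3 : ‖ballInv y x‖ ^ 2 - 1 ≤ 0 := by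
    rw [h]
    exact mul_nonpos_of_nonneg_of_nonpos h1 h2
  nlinarith [norm_nonneg (ballInv y x)]

theorem ballInv_sphere {y : E} (hy : 1 < ‖y‖) :
    MapsTo (ballInv y) (sphere (0 : E) 1) (sphere (0 : E) 1) := by
  intro x hx
  have h := norm_ballInv hy (ne_of_mem hy (sphere_subset_closedBall hx))
  rw [mem_sphere_zero_iff_norm] at hx ⊢
  rw [hx] at h
  have h3 : ‖ballInv y x‖ ^ 2 = 1 := by linarith
  have h4 := norm_nonneg (ballInv y x)
  nlinarith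

theorem ballInv_ballInv {y : E} (hy : 1 < ‖y‖) (x : E) : ballInv y (ballInv y x) = x := by
  apply inversion_inversion
  have : 0 < ‖y‖ ^ 2 - 1 := by nlinarith
  exact (Real.sqrt_pos.2 this).ne'

theorem ballInv_bijOn {y : E} (hy : 1 < ‖y‖) :
    BijOn (ballInv y) (closedBall (0 : E) 1) (closedBall (0 : E) 1) :=
  ⟨ballInv_mapsTo hy, fun a _ b _ h => by
    rw [← ballInv_ballInv hy a, ← ballInv_ballInv hy b]
    exact congrArg _ h, fun a ha => ⟨ballInv y a, ballInv_mapsTo hy ha, ballInv_ballInv hy a⟩⟩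

theorem ballInv_bijOn_sphere {y : E} (hy : 1 < ‖y‖) :
    BijOn (ballInv y) (sphere (0 : E) 1) (sphere (0 : E) 1) :=
  ⟨ballInv_sphere hy, fun a _ b _ h => by
    rw [← ballInv_ballInv hy a, ← ballInv_ballInv hy b]
    exact congrArg _ h, fun a ha => ⟨ballInv y a, ballInv_sphere hy ha, ballInv_ballInv hy a⟩⟩

theorem ballInv_hasFDerivAt {y : E} (hy : 1 < ‖y‖) {x : E} (hx : x ≠ y) :
    HasFDerivAt (ballInv y)
      (((‖y‖ ^ 2 - 1) / ‖x - y‖ ^ 2) • ((Submodule.span ℝ {x - y})ᗮ.reflection : E →L[ℝ] E)) x := by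
  have h : 0 ≤ ‖y‖ ^ 2 - 1 := by nlinarith
  have := hasFDerivAt_inversion (R := Real.sqrt (‖y‖ ^ 2 - 1)) hx
  rwa [div_pow, Real.sq_sqrt h, dist_eq_norm] at this

theorem ballInv_contDiffOn (y : E) {n : ℕ∞} : ContDiffOn ℝ n (ballInv y) {x | x ≠ y} :=
  contDiffOn_const.inversion contDiffOn_const contDiffOn_id fun _ h => h

/-- Conformality: `⟨Df v, Df w⟩ = λ² ⟨v, w⟩`. -/
theorem ballInv_inner {y : E} (hy : 1 < ‖y‖) {x : E} (hx : x ≠ y) (v w : E) :
    inner ℝ (fderiv ℝ (ballInv y) x v) (fderiv ℝ (ballInv y) x w) =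
      ((‖y‖ ^ 2 - 1) / ‖x - y‖ ^ 2) ^ 2 * inner ℝ v w := by
  rw [(ballInv_hasFDerivAt hy hx).fderiv]
  simp only [ContinuousLinearMap.coe_smul', Pi.smul_apply, inner_smul_left, inner_smul_right]
  rw [show inner ℝ (((Submodule.span ℝ {x - y})ᗮ.reflection : E →L[ℝ] E) v)
    (((Submodule.span ℝ {x - y})ᗮ.reflection : E →L[ℝ] E) w) = inner ℝ v w from
    LinearIsometryEquiv.inner_map_map _ _ _]
  simp
  ring

end Pool.Agent.Lib_helper60.FB
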