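import Pool.Agent.Lib_helper60.FB.Doug

/-!
The kernel of the first inner variation of the Douglas energy for the field `e^{ikθ}`, and the
vanishing of the Hopf differential.
-/

namespace Pool.Agent.Lib_helper60.FB

open MeasureTheory AddCircle ENNReal

/-- `∑_{j+l=k} j l w^j z^l`. -/
noncomputable def hopfKer (k : ℕ) (w z : ℂ) : ℂ :=
  ∑ j ∈ Finset.range (k + 1), (j : ℂ) * ((k : ℂ) - j) * (w ^ j * z ^ (k - j))

theorem sum_T (w z : ℂ) (k : ℕ) :
    (w - z) ^ 2 * ∑ j ∈ Finset.range (k + 1), (j : ℂ) * (w ^ j * z ^ (k - j)) =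
      w * (k * w ^ (k + 1) - (k + 1) * w ^ k * z + z ^ (k + 1)) := by
  induction k with
  | zero => simp
  | succ k ih =>
    rw [Finset.sum_range_succ]
    have h1 : ∑ j ∈ Finset.range (k + 1), (j : ℂ) * (w ^ j * z ^ (k + 1 - j)) =
        z * ∑ j ∈ Finset.range (k + 1), (j : ℂ) * (w ^ j * z ^ (k - j)) := by
      rw [Finset.mul_sum]
      refine Finset.sum_congr rfl fun j hj => ?_
      have hj' : j ≤ k := Nat.lt_succ_iff.1 (Finset.mem_range.1 hj)
      rw [Nat.succ_sub hj', pow_succ]
      ring
    rw [h1, mul_add, show (w - z) ^ 2 * (z * ∑ j ∈ Finset.range (k + 1),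
      (j : ℂ) * (w ^ j * z ^ (k - j))) = z * ((w - z) ^ 2 * ∑ j ∈ Finset.range (k + 1),
      (j : ℂ) * (w ^ j * z ^ (k - j))) by ring, ih]
    simp
    ring

theorem hopfKer_id (w z : ℂ) (k : ℕ) :
    w * z * (k * (w ^ k + z ^ k) * (w - z) - (w ^ k - z ^ k) * (w + z)) =
      (w - z) ^ 3 * hopfKer k w z := by
  induction k with
  | zero => simp [hopfKer]
  | succ k ih =>
    have h1 : hopfKer (k + 1) w z = z * (hopfKer k w z +
        ∑ j ∈ Finset.range (k + 1), (j : ℂ) * (w ^ j * z ^ (k - j))) := by
      rw [hopfKer, Finset.sum_range_succ, hopfKer, ← Finset.sum_add_distrib, Finset.mul_sum]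
      have h2 : ((k + 1 : ℕ) : ℂ) * (((k + 1 : ℕ) : ℂ) - ((k + 1 : ℕ) : ℂ)) *
          (w ^ (k + 1) * z ^ (k + 1 - (k + 1))) = 0 := by ring
      rw [h2, add_zero]
      refine Finset.sum_congr rfl fun j hj => ?_
      have hj' : j ≤ k := Nat.lt_succ_iff.1 (Finset.mem_range.1 hj)
      rw [Nat.succ_sub hj', pow_succ]
      push_cast
      ring
    have h3 := sum_T w z k
    rw [h1]
    have h4 : (w - z) ^ 3 * (z * (hopfKer k w z +
        ∑ j ∈ Finset.range (k + 1), (j : ℂ) * (w ^ j * z ^ (k - j)))) =
        z * ((w - z) ^ 3 * hopfKer k w z) + z * (w - z) * ((w - z) ^ 2 *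
          ∑ j ∈ Finset.range (k + 1), (j : ℂ) * (w ^ j * z ^ (k - j))) := by ring
    rw [h4, h3, ← ih]
    push_cast
    ring

variable {T : ℝ} [hT : Fact (0 < T)]

theorem integral_fourier_ne {n : ℤ} (hn : n ≠ 0) :
    ∫ t : AddCircle T, (fourier n t : ℂ) ∂haarAddCircle = 0 := by
  have h := fourierCoeff_fourier (T := T) n
  have h1 := congrFun h 0
  rw [fourierCoeff, Pi.single_eq_of_ne hn.symm] at h1
  simpa using h1

theorem integral_mul_fourier (f : AddCircle T → ℂ) (n : ℤ) :
    ∫ t : AddCircle T, f t * (fourier n t : ℂ) ∂haarAddCircle = fourierCoeff f (-n) := by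
  rw [fourierCoeff]
  refine integral_congr_ae (Filter.Eventually.of_forall fun t => ?_)
  simp [mul_comm]

/-- The double Fourier coefficients of `(X(s) - X(t))²`. -/
theorem double_coeff {X : AddCircle T → ℝ} (hX : MemLp X 2 haarAddCircle) {j l : ℤ} (hj : j ≠ 0)
    (hl : l ≠ 0) :
    ∫ s : AddCircle T, ∫ t : AddCircle T, ((X s - X t : ℝ) : ℂ) ^ 2 *
      ((fourier j s : ℂ) * fourier l t) ∂haarAddCircle ∂haarAddCircle =
      -2 * fourierCoeff (fun t => (X t : ℂ)) (-j) * fourierCoeff (fun t => (X t : ℂ)) (-l) := by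
  have hXc : MemLp (fun t => (X t : ℂ)) 2 haarAddCircle := hX.ofReal
  have hi : Integrable (fun t => (X t : ℂ)) haarAddCircle := hXc.integrable (by norm_num)
  have hi2 : Integrable (fun t => (X t : ℂ) ^ 2) haarAddCircle := by
    have := hX.integrable_sq.ofReal (𝕜 := ℂ)
    refine this.congr (Filter.Eventually.of_forall fun t => ?_)
    simp
  have hm : ∀ {g : AddCircle T → ℂ}, Integrable g haarAddCircle → ∀ n : ℤ,
      Integrable (fun t => g t * (fourier n t : ℂ)) haarAddCircle := by
    intro g hg n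
    refine (hg.bdd_mul (c := 1) (f := fun t => (fourier n t : ℂ)) ?_ ?_).congr
      (Filter.Eventually.of_forall fun t => by ring)
    · exact (fourier n).continuous.aestronglyMeasurable
    · exact Filter.Eventually.of_forall fun t => by
        rw [fourier_apply]; simp
  have hinner : ∀ s : AddCircle T, ∫ t : AddCircle T, ((X s - X t : ℝ) : ℂ) ^ 2 *
      ((fourier j s : ℂ) * fourier l t) ∂haarAddCircle =
      (-2 * fourierCoeff (fun t => (X t : ℂ)) (-l)) * ((X s : ℂ) * fourier j s) +
        fourierCoeff (fun t => (X t : ℂ) ^ 2) (-l) * fourier j s := by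
    intro s
    have h1 : ∀ t : AddCircle T, ((X s - X t : ℝ) : ℂ) ^ 2 * ((fourier j s : ℂ) * fourier l t) =
        ((X s : ℂ) ^ 2 * fourier j s) * fourier l t +
        ((-2 * (X s : ℂ) * fourier j s) * ((X t : ℂ) * fourier l t) +
          (fourier j s : ℂ) * ((X t : ℂ) ^ 2 * fourier l t)) := by
      intro t
      push_cast
      ring
    simp only [h1]
    have e1 : Integrable (fun t : AddCircle T => ((X s : ℂ) ^ 2 * fourier j s) * fourier l t)
        haarAddCircle := ((fourier l).continuous.integrable_of_hasCompactSupport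
          (HasCompactSupport.of_compactSpace _)).const_mul _
    have e2 : Integrable (fun t : AddCircle T => (-2 * (X s : ℂ) * fourier j s) *
        ((X t : ℂ) * fourier l t)) haarAddCircle := (hm hi l).const_mul _
    have e3 : Integrable (fun t : AddCircle T => (fourier j s : ℂ) *
        ((X t : ℂ) ^ 2 * fourier l t)) haarAddCircle := (hm hi2 l).const_mul _
    refine (integral_add e1 (e2.add e3)).trans ?_
    have h9 := integral_add e2 e3
    simp only [Pi.add_apply]
    rw [h9, integral_const_mul, integral_const_mul,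
      integral_const_mul, integral_fourier_ne hl, integral_mul_fourier, integral_mul_fourier]
    ring
  simp only [hinner]
  have g1 : Integrable (fun s : AddCircle T => (-2 * fourierCoeff (fun t => (X t : ℂ)) (-l)) *
      ((X s : ℂ) * fourier j s)) haarAddCircle := (hm hi j).const_mul _
  have g2 : Integrable (fun s : AddCircle T => fourierCoeff (fun t => (X t : ℂ) ^ 2) (-l) *
      (fourier j s : ℂ)) haarAddCircle := ((fourier j).continuous.integrable_of_hasCompactSupport
          (HasCompactSupport.of_compactSpace _)).const_mul _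
  rw [integral_add g1 g2, integral_const_mul, integral_const_mul, integral_fourier_ne hj,
    integral_mul_fourier]
  ring

end Pool.Agent.Lib_helper60.FB
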