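import Mathlib

/-!
Removability of the real line for continuous functions, and the Schwarz reflection principle.
-/

namespace Pool.Agent.Lib_helper60.FB

open Complex MeasureTheory Metric Set Topology
open scoped Interval

variable {E : Type*} [NormedAddCommGroup E] [NormedSpace ℂ E]

/-- The boundary integral over the rectangle `[a, b] × [c, d]`. -/
noncomputable def bd (f : ℂ → E) (a b c d : ℝ) : E :=
  (∫ x : ℝ in a..b, f (x + c * I)) - (∫ x : ℝ in a..b, f (x + d * I)) +
      I • (∫ y : ℝ in c..d, f (b + y * I)) - I • (∫ y : ℝ in c..d, f (a + y * I))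

theorem bd_split (f : ℂ → E) {a b c d e : ℝ} (he : e ∈ [[c, d]])
    (hf : ContinuousOn f ([[a, b]] ×ℂ [[c, d]])) : bd f a b c d = bd f a b c e + bd f a b e d := by
  have hv : ∀ x ∈ [[a, b]], ∀ p q, p ∈ [[c, d]] → q ∈ [[c, d]] →
      IntervalIntegrable (fun y : ℝ => f (x + y * I)) volume p q := by
    intro x hx p q hp hq
    refine ContinuousOn.intervalIntegrable ?_
    refine hf.comp (by fun_prop) ?_
    intro y hy
    rw [mem_reProdIm]
    simp only [add_re, ofReal_re, mul_re, I_re, mul_zero, ofReal_im, I_im, mul_one, sub_self,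
      add_zero, add_im, mul_im, zero_add]
    exact ⟨hx, uIcc_subset_uIcc hp hq hy⟩
  have h1 := intervalIntegral.integral_add_adjacent_intervals
    (hv b right_mem_uIcc c e left_mem_uIcc he) (hv b right_mem_uIcc e d he right_mem_uIcc)
  have h2 := intervalIntegral.integral_add_adjacent_intervals
    (hv a left_mem_uIcc c e left_mem_uIcc he) (hv a left_mem_uIcc e d he right_mem_uIcc)
  rw [bd, bd, bd, ← h1, ← h2, smul_add, smul_add]
  abel

theorem bd_zero [CompleteSpace E] (f : ℂ → E) {a b c d : ℝ}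
    (hf : ContinuousOn f ([[a, b]] ×ℂ [[c, d]]))
    (hd : ∀ z ∈ Ioo (min a b) (max a b) ×ℂ Ioo (min c d) (max c d), DifferentiableAt ℂ f z) :
    bd f a b c d = 0 := by
  have := integral_boundary_rect_eq_zero_of_continuousOn_of_differentiableOn f
    (⟨a, c⟩ : ℂ) ⟨b, d⟩ hf (fun z hz => (hd z hz).differentiableWithinAt)
  simpa [bd] using this

theorem bd_zero_line [CompleteSpace E] (f : ℂ → E) {a b c d : ℝ}
    (hf : ContinuousOn f ([[a, b]] ×ℂ [[c, d]]))
    (hd : ∀ z ∈ [[a, b]] ×ℂ [[c, d]], z.im ≠ 0 → DifferentiableAt ℂ f z) :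
    bd f a b c d = 0 := by
  have key : ∀ c d : ℝ, ContinuousOn f ([[a, b]] ×ℂ [[c, d]]) →
      (∀ z ∈ [[a, b]] ×ℂ [[c, d]], z.im ≠ 0 → DifferentiableAt ℂ f z) →
      0 ∉ Ioo (min c d) (max c d) → bd f a b c d = 0 := by
    intro c d hf hd h0
    refine bd_zero f hf fun z hz => hd z ?_ ?_
    · rw [mem_reProdIm] at hz ⊢
      exact ⟨⟨hz.1.1.le, hz.1.2.le⟩, ⟨hz.2.1.le, hz.2.2.le⟩⟩
    · intro h
      rw [mem_reProdIm, h] at hz
      exact h0 hz.2
  by_cases h0 : (0 : ℝ) ∈ Ioo (min c d) (max c d)
  · have h0' : (0 : ℝ) ∈ [[c, d]] := ⟨h0.1.le, h0.2.le⟩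
    have s1 : [[a, b]] ×ℂ [[c, 0]] ⊆ [[a, b]] ×ℂ [[c, d]] := fun z hz => by
      rw [mem_reProdIm] at hz ⊢
      exact ⟨hz.1, uIcc_subset_uIcc left_mem_uIcc h0' hz.2⟩
    have s2 : [[a, b]] ×ℂ [[0, d]] ⊆ [[a, b]] ×ℂ [[c, d]] := fun z hz => by
      rw [mem_reProdIm] at hz ⊢
      exact ⟨hz.1, uIcc_subset_uIcc h0' right_mem_uIcc hz.2⟩
    rw [bd_split f h0' hf, key c 0 (hf.mono s1) (fun z hz => hd z (s1 hz)),
      key 0 d (hf.mono s2) (fun z hz => hd z (s2 hz)), add_zero]
    · intro h
      rcases lt_or_ge 0 d with h' | h'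
      · rw [min_eq_left h'.le] at h
        exact lt_irrefl _ h.1
      · rw [max_eq_left h'] at h
        exact lt_irrefl _ h.2
    · intro h
      rcases lt_or_ge 0 c with h' | h'
      · rw [min_eq_right h'.le] at h
        exact lt_irrefl _ h.1
      · rw [max_eq_right h'] at h
        exact lt_irrefl _ h.2
  · exact key c d hf hd h0

/-- A continuous function on a disc that is holomorphic off the real line is holomorphic. -/
theorem line_removable_ball [CompleteSpace E] {f : ℂ → E} {c : ℂ} {r : ℝ}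
    (hf : ContinuousOn f (ball c r))
    (hd : ∀ z ∈ ball c r, z.im ≠ 0 → DifferentiableAt ℂ f z) : DifferentiableOn ℂ f (ball c r) := by
  rw [← isConservativeOn_and_continuousOn_iff_isDifferentiableOn isOpen_ball]
  refine ⟨fun z w hzw => ?_, hf⟩
  rw [← add_eq_zero_iff_eq_neg, wedgeIntegral_add_wedgeIntegral_eq]
  have := bd_zero_line f (a := z.re) (b := w.re) (c := z.im) (d := w.im) (hf.mono hzw)
    (fun z hz => hd z (hzw hz))
  simpa [bd] using this

theorem line_removable [CompleteSpace E] {f : ℂ → E} {U : Set ℂ} (hU : IsOpen U)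
    (hf : ContinuousOn f U) (hd : ∀ z ∈ U, z.im ≠ 0 → DifferentiableAt ℂ f z) :
    DifferentiableOn ℂ f U := by
  intro z hz
  obtain ⟨r, hr, hb⟩ := Metric.isOpen_iff.1 hU z hz
  exact ((line_removable_ball (hf.mono hb) (fun w hw => hd w (hb hw))).differentiableAt
    (isOpen_ball.mem_nhds (mem_ball_self hr))).differentiableWithinAt

/-- **Schwarz reflection.** `U` open and symmetric, `f` continuous on the closed upper part,
holomorphic on the open upper part, real on the real part: the reflected function is holomorphic. -/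
theorem schwarz_reflection {f : ℂ → ℂ} {U : Set ℂ} (hU : IsOpen U)
    (hsym : ∀ z ∈ U, (starRingEnd ℂ) z ∈ U)
    (hf : ContinuousOn f (U ∩ {z | 0 ≤ z.im}))
    (hd : ∀ z ∈ U, 0 < z.im → DifferentiableAt ℂ f z)
    (hr : ∀ z ∈ U, z.im = 0 → (f z).im = 0) :
    DifferentiableOn ℂ (fun z => if 0 ≤ z.im then f z else (starRingEnd ℂ) (f ((starRingEnd ℂ) z)))
      U := by
  set g : ℂ → ℂ := fun z => if 0 ≤ z.im then f z else (starRingEnd ℂ) (f ((starRingEnd ℂ) z)) with hg
  refine line_removable hU ?_ ?_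
  · -- continuity
    have hcl : IsClosed {z : ℂ | 0 ≤ z.im} := isClosed_le continuous_const continuous_im
    have hcl2 : IsClosed {z : ℂ | z.im ≤ 0} := isClosed_le continuous_im continuous_const
    have h1 : ContinuousOn g (U ∩ {z | 0 ≤ z.im}) :=
      hf.congr fun z hz => by
        rw [hg]
        have h : 0 ≤ z.im := hz.2
        simp only
        rw [if_pos h]
    have h2 : ContinuousOn g (U ∩ {z | z.im ≤ 0}) := by
      have h3 : ContinuousOn (fun z => (starRingEnd ℂ) (f ((starRingEnd ℂ) z)))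
          (U ∩ {z | z.im ≤ 0}) := by
        refine continuous_conj.comp_continuousOn (hf.comp continuous_conj.continuousOn ?_)
        rintro z ⟨hz1, hz2⟩
        refine ⟨hsym z hz1, ?_⟩
        simp only [mem_ofPred_eq, conj_im] at hz2 ⊢
        linarith
      refine h3.congr fun z hz => ?_
      rw [hg]
      simp only
      split_ifs with h
      · have h0 : z.im = 0 := le_antisymm hz.2 h
        have hz' : (starRingEnd ℂ) z = z := conj_eq_iff_im.2 h0
        rw [hz']
        exact (conj_eq_iff_im.2 (hr z hz.1 h0)).symm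
      · rfl
    have h4 : U = (U ∩ {z | 0 ≤ z.im}) ∪ (U ∩ {z | z.im ≤ 0}) := by
      rw [← inter_union_distrib_left]
      refine (inter_eq_left.2 fun z _ => ?_).symm
      rcases le_total 0 z.im with h | h
      · exact Or.inl h
      · exact Or.inr h
    intro z hz
    have e1 : ContinuousWithinAt g (U ∩ {z | 0 ≤ z.im}) z := by
      by_cases h : 0 ≤ z.im
      · exact h1 z ⟨hz, h⟩
      · have : z ∉ closure (U ∩ {z : ℂ | 0 ≤ z.im}) := fun hcon =>
          h (hcl.closure_subset_iff.2 inter_subset_right hcon)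
        exact continuousWithinAt_of_notMem_closure this
    have e2 : ContinuousWithinAt g (U ∩ {z | z.im ≤ 0}) z := by
      by_cases h : z.im ≤ 0
      · exact h2 z ⟨hz, h⟩
      · have : z ∉ closure (U ∩ {z : ℂ | z.im ≤ 0}) := fun hcon =>
          h (hcl2.closure_subset_iff.2 inter_subset_right hcon)
        exact continuousWithinAt_of_notMem_closure this
    rw [h4]
    exact e1.union e2
  · intro z hz hz0
    rcases lt_or_gt_of_ne hz0 with h | h
    · have h5 : DifferentiableAt ℂ (fun z => (starRingEnd ℂ) (f ((starRingEnd ℂ) z))) z := by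
        have h6 : DifferentiableAt ℂ f ((starRingEnd ℂ) z) :=
          hd _ (hsym z hz) (by rw [conj_im]; linarith)
        have h7 := h6.conj_conj
        rw [Complex.conj_conj] at h7
        exact h7
      refine h5.congr_of_eventuallyEq ?_
      filter_upwards [(isOpen_lt continuous_im continuous_const).mem_nhds h] with w hw
      rw [hg]
      simp only
      rw [if_neg (not_le.2 hw)]
    · refine (hd z hz h).congr_of_eventuallyEq ?_
      filter_upwards [(isOpen_lt continuous_const continuous_im).mem_nhds h] with w hw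
      rw [hg]
      simp only
      rw [if_pos (le_of_lt hw)]

end Pool.Agent.Lib_helper60.FB
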